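import Pool.Agent.AddDes.Code

set_option linter.all false
set_option maxRecDepth 100000

namespace Pool.Agent.AddDes

theorem c1 : allR chk1 11 0 = true := by decide +kernel
theorem cD : allR chkD 11 0 = true := by decide +kernel
theorem cS0 : allR (chkS 1) 11 0 = true := by decide +kernel
theorem cS1 : allR (chkS 5) 11 0 = true := by decide +kernel
theorem cS2 : allR (chkS 25) 11 0 = true := by decide +kernel
theorem cS3 : allR (chkS 125) 11 0 = true := by decide +kernel
theorem cS4 : allR (chkS 625) 11 0 = true := by decide +kernel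
theorem cS5 : allR (chkS 3125) 11 0 = true := by decide +kernel
theorem cB : allR chkB 14 0 = true := by decide +kernel
theorem c3a : allR chk3 9 0 = true := by decide +kernel
theorem c3b : allR chk3 9 512 = true := by decide +kernel
theorem c3c : allR chk3 9 1024 = true := by decide +kernel
theorem c3d : allR chk3 9 1536 = true := by decide +kernel

theorem allR_spec {p : ℕ → Bool} : ∀ {k lo : ℕ}, allR p k lo = true →
    ∀ n, lo ≤ n → n < lo + 2 ^ k → p n = true
  | 0, lo, h, n, h1, h2 => by
    have : n = lo := by
      simp at h2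
      omega
    subst this
    exact h
  | k + 1, lo, h, n, h1, h2 => by
    have h' : (allR p k lo && allR p k (lo + 2 ^ k)) = true := h
    rw [Bool.and_eq_true] at h'
    by_cases hn : n < lo + 2 ^ k
    · exact allR_spec h'.1 n h1 hn
    · refine allR_spec h'.2 n (by omega) ?_
      have : 2 ^ (k + 1) = 2 ^ k + 2 ^ k := by ring
      omega

theorem all9_spec {p : ℕ → Bool} (h : all9 p = true) : ∀ i < 9, p i = true := by
  simp only [all9, Bool.and_eq_true] at h
  obtain ⟨h0, h1, h2, h3, h4, h5, h6, h7, h8⟩ := h
  intro i hi
  interval_cases i <;> assumption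

theorem chk3_all (j : ℕ) (hj : j < 1736) : chk3 j = true := by
  by_cases h1 : j < 512
  · exact allR_spec c3a j (by omega) (by norm_num; omega)
  by_cases h2 : j < 1024
  · exact allR_spec c3b j (by omega) (by norm_num; omega)
  by_cases h3 : j < 1536
  · exact allR_spec c3c j (by omega) (by norm_num; omega)
  · exact allR_spec c3d j (by omega) (by norm_num; omega)

/-- closure -/
theorem closure (j : ℕ) (hj : j < 1736) (i i' : ℕ) (hi : i < 9) (hi' : i' < 9) (hne : i ≠ i') :
    fI (opN (el (blk j) i) (el (blk j) i')) = fI (opN (el (blk j) i) 0) := by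
  have h := chk3_all j hj
  simp only [chk3, Bool.or_eq_true] at h
  rcases h with h | h
  · exact absurd (Nat.le_of_ble_eq_true h) (by omega)
  · have h2 := all9_spec (all9_spec h i hi) i' hi'
    simp only [Bool.or_eq_true] at h2
    rcases h2 with h2 | h2
    · exact absurd (Nat.eq_of_beq_eq_true h2) hne
    · exact Nat.eq_of_beq_eq_true h2

theorem range1 (j : ℕ) (hj : j < 1736) (i : ℕ) (hi : i < 9) :
    1 ≤ el (blk j) i ∧ el (blk j) i < 15625 ∧ fI (el (blk j) i) = j := by
  have h := allR_spec c1 j (by omega) (by norm_num; omega)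
  simp only [chk1, Bool.or_eq_true] at h
  rcases h with h | h
  · exact absurd (Nat.le_of_ble_eq_true h) (by omega)
  · have h2 := all9_spec h i hi
    simp only [Bool.and_eq_true] at h2
    refine ⟨Nat.le_of_ble_eq_true h2.1, ?_, Nat.eq_of_beq_eq_true h2.2.2⟩
    have := Nat.le_of_ble_eq_true h2.2.1
    omega

theorem distinct (j : ℕ) (hj : j < 1736) (i i' : ℕ) (hi : i < 9) (hi' : i' < 9) (hne : i ≠ i') :
    el (blk j) i ≠ el (blk j) i' := by
  have h := allR_spec cD j (by omega) (by norm_num; omega)
  simp only [chkD, Bool.or_eq_true] at h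
  rcases h with h | h
  · exact absurd (Nat.le_of_ble_eq_true h) (by omega)
  · have h2 := all9_spec (all9_spec h i hi) i' hi'
    simp only [Bool.or_eq_true, Bool.not_eq_true'] at h2
    rcases h2 with h2 | h2
    · exact absurd (Nat.eq_of_beq_eq_true h2) hne
    · exact Nat.ne_of_beq_eq_false h2

theorem cover (d : ℕ) (h0 : d ≠ 0) (hd : d < 15625) :
    fI d < 1736 ∧ ∃ i < 9, el (blk (fI d)) i = d := by
  have h := allR_spec cB d (by omega) (by norm_num; omega)
  simp only [chkB, Bool.or_eq_true, Bool.and_eq_true] at h
  rcases h with h | h | ⟨h1, h2⟩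
  · exact absurd (Nat.eq_of_beq_eq_true h) h0
  · exact absurd (Nat.le_of_ble_eq_true h) (by omega)
  · refine ⟨by have := Nat.le_of_ble_eq_true h1; omega, ?_⟩
    by_contra hcon
    push Not at hcon
    have h3 : all9 (fun i => !(Nat.beq (el (blk (fI d)) i) d)) = true := by
      have key : ∀ i < 9, (!(Nat.beq (el (blk (fI d)) i) d)) = true := by
        intro i hi
        have hh := hcon i hi
        rw [Bool.not_eq_true']
        by_contra hb
        rw [Bool.not_eq_false] at hb
        exact hh (Nat.eq_of_beq_eq_true hb)
      simp only [all9, Bool.and_eq_true]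
      exact ⟨key 0 (by omega), key 1 (by omega), key 2 (by omega), key 3 (by omega),
        key 4 (by omega), key 5 (by omega), key 6 (by omega), key 7 (by omega), key 8 (by omega)⟩
    rw [h3] at h2
    exact absurd h2 (by decide)

end Pool.Agent.AddDes
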