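import Pool.Agent.AddDes.Data

set_option linter.all false

namespace Pool.Agent.AddDes

/-- index of the block through 0 and the point of code n -/
def fI (n : ℕ) : ℕ := Nat.mod (Nat.shiftRight tabF (Nat.mul 11 n)) 2048

/-- packed block -/
def blk (j : ℕ) : ℕ := Nat.mod (Nat.shiftRight tabB (Nat.mul 126 j)) 85070591730234615865843651857942052864

/-- `i`-th element of a packed block -/
def el (b i : ℕ) : ℕ := Nat.mod (Nat.shiftRight b (Nat.mul 14 i)) 16384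

/-- digit -/
def dg (n k : ℕ) : ℕ := Nat.mod (Nat.div n k) 5

/-- code of `(dec m)⁻¹ ∘ dec n` -/
def opN (m n : ℕ) : ℕ :=
  Nat.add (Nat.mod (Nat.add (dg n 1) (Nat.mul 4 (dg m 1))) 5)
  (Nat.mul 5 (Nat.add (Nat.mod (Nat.add (dg n 5) (Nat.mul 4 (dg m 5))) 5)
  (Nat.mul 5 (Nat.add (Nat.mod (Nat.add (dg n 25) (Nat.mul 4 (dg m 25))) 5)
  (Nat.mul 5 (Nat.add (Nat.mod (Nat.add (Nat.add (dg n 125) (Nat.mul 4 (dg m 125)))
      (Nat.add (Nat.mul 4 (Nat.mul (dg m 5) (dg n 25))) (Nat.mul (dg m 25) (dg n 5)))) 5)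
  (Nat.mul 5 (Nat.add (Nat.mod (Nat.add (Nat.add (dg n 625) (Nat.mul 4 (dg m 625)))
      (Nat.add (Nat.mul 4 (Nat.mul (dg m 25) (dg n 1))) (Nat.mul (dg m 1) (dg n 25)))) 5)
  (Nat.mul 5 (Nat.mod (Nat.add (Nat.add (dg n 3125) (Nat.mul 4 (dg m 3125)))
      (Nat.add (Nat.mul 4 (Nat.mul (dg m 1) (dg n 5))) (Nat.mul (dg m 5) (dg n 1)))) 5))))))))))

/-- conjunction over `[lo, lo + 2^k)` -/
def allR (p : ℕ → Bool) : ℕ → ℕ → Bool
  | 0, lo => p lo
  | k + 1, lo => allR p k lo && allR p k (Nat.add lo (Nat.pow 2 k))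

/-- conjunction over `i < 9` -/
def all9 (p : ℕ → Bool) : Bool :=
  p 0 && (p 1 && (p 2 && (p 3 && (p 4 && (p 5 && (p 6 && (p 7 && p 8)))))))

/-- sum over `i < 9` -/
def sum9 (p : ℕ → ℕ) : ℕ :=
  Nat.add (p 0) (Nat.add (p 1) (Nat.add (p 2) (Nat.add (p 3) (Nat.add (p 4) (Nat.add (p 5)
    (Nat.add (p 6) (Nat.add (p 7) (p 8))))))))

/-- closure check for one block -/
def chk3 (j : ℕ) : Bool :=
  Nat.ble 1736 j || all9 fun i => all9 fun i' => Nat.beq i i' ||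
    Nat.beq (fI (opN (el (blk j) i) (el (blk j) i'))) (fI (opN (el (blk j) i) 0))

/-- range and index check for one block -/
def chk1 (j : ℕ) : Bool :=
  Nat.ble 1736 j || all9 fun i => (Nat.ble 1 (el (blk j) i) && (Nat.ble (el (blk j) i) 15624 &&
    Nat.beq (fI (el (blk j) i)) j))

/-- distinctness check for one block -/
def chkD (j : ℕ) : Bool :=
  Nat.ble 1736 j || all9 fun i => all9 fun i' => Nat.beq i i' ||
    !(Nat.beq (el (blk j) i) (el (blk j) i'))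

/-- zero-sum check for one block and one digit -/
def chkS (k j : ℕ) : Bool :=
  Nat.ble 1736 j || Nat.beq (Nat.mod (sum9 fun i => Nat.div (el (blk j) i) k) 5) 0

/-- covering check for one point -/
def chkB (d : ℕ) : Bool :=
  Nat.beq d 0 || (Nat.ble 15625 d || (Nat.ble (fI d) 1735 &&
    !(all9 fun i => !(Nat.beq (el (blk (fI d)) i) d))))

end Pool.Agent.AddDes
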