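import Pool.Agent.AddDes.Grp

set_option linter.all false

namespace Pool.Agent.AddDes

open Finset

/-- the block through 0 of index j -/
noncomputable def C (j : ℕ) : Finset V := insert 0 ((Finset.range 9).image fun i => dec (el (blk j) i))

/-- index of the block through 0 and P -/
def idx (P : V) : ℕ := fI (enc P)

theorem mem_C {j : ℕ} {P : V} : P ∈ C j ↔ P = 0 ∨ ∃ i < 9, dec (el (blk j) i) = P := by
  unfold C
  rw [Finset.mem_insert, Finset.mem_image]
  simp only [Finset.mem_range]

theorem zero_mem_C (j : ℕ) : (0 : V) ∈ C j := mem_C.2 (Or.inl rfl)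

theorem dec_zero : dec 0 = 0 := by
  funext i
  unfold dec
  simp

theorem dec_ne_zero {n : ℕ} (h1 : 1 ≤ n) (h2 : n < 15625) : dec n ≠ 0 := by
  intro h
  rw [← dec_zero] at h
  have := dec_inj h2 (by norm_num) h
  omega

theorem mem_C_idx {P : V} (hP : P ≠ 0) : idx P < 1736 ∧ P ∈ C (idx P) := by
  have h0 : enc P ≠ 0 := by
    intro h
    apply hP
    rw [← dec_enc P, h, dec_zero]
  obtain ⟨h1, i, hi, h2⟩ := cover (enc P) h0 (enc_lt P)
  refine ⟨h1, mem_C.2 (Or.inr ⟨i, hi, ?_⟩)⟩
  show dec (el (blk (fI (enc P))) i) = P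
  rw [h2, dec_enc]

theorem idx_of_mem {j : ℕ} (hj : j < 1736) {P : V} (hP : P ≠ 0) (h : P ∈ C j) : idx P = j := by
  rcases mem_C.1 h with h | ⟨i, hi, h⟩
  · exact absurd h hP
  · obtain ⟨r1, r2, r3⟩ := range1 j hj i hi
    unfold idx
    rw [← h, enc_dec _ r2, r3]

theorem card_C {j : ℕ} (hj : j < 1736) : (C j).card = 10 := by
  unfold C
  rw [Finset.card_insert_of_notMem, Finset.card_image_of_injOn, Finset.card_range]
  · intro i hi i' hi' h
    by_contra hne
    have hi2 : i < 9 := by simpa using hi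
    have hi2' : i' < 9 := by simpa using hi'
    exact distinct j hj i i' hi2 hi2' hne
      (dec_inj (range1 j hj i hi2).2.1 (range1 j hj i' hi2').2.1 h)
  · intro h
    rw [Finset.mem_image] at h
    obtain ⟨i, hi, h⟩ := h
    have hi2 : i < 9 := by simpa using hi
    exact dec_ne_zero (range1 j hj i hi2).1 (range1 j hj i hi2).2.1 h

theorem sum_dec (j : ℕ) (hj : j < 1736) : ∑ i ∈ Finset.range 9, dec (el (blk j) i) = 0 := by
  funext t
  rw [Finset.sum_apply]
  have hs : ∀ (k : ℕ), allR (chkS k) 11 0 = true →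
      ((∑ i ∈ Finset.range 9, (el (blk j) i / k) : ℕ) : ZMod 5) = 0 := by
    intro k hk
    have h := allR_spec hk j (by omega) (by norm_num; omega)
    simp only [chkS, Bool.or_eq_true] at h
    rcases h with h | h
    · exact absurd (Nat.le_of_ble_eq_true h) (by omega)
    · have h2 := Nat.eq_of_beq_eq_true h
      rw [ZMod.natCast_eq_zero_iff]
      apply Nat.dvd_of_mod_eq_zero
      rw [← h2]
      congr 1
  have hc : ∀ k : ℕ, k = 5 ^ (t : ℕ) → allR (chkS k) 11 0 = true →
      ∑ i ∈ Finset.range 9, dec (el (blk j) i) t = (0 : V) t := by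
    intro k hk hk2
    have := hs k hk2
    rw [Nat.cast_sum] at this
    subst hk
    exact this
  fin_cases t
  · exact hc 1 rfl cS0
  · exact hc 5 rfl cS1
  · exact hc 25 rfl cS2
  · exact hc 125 rfl cS3
  · exact hc 625 rfl cS4
  · exact hc 3125 rfl cS5

theorem sum_C {j : ℕ} (hj : j < 1736) : ∑ x ∈ C j, x = 0 := by
  unfold C
  rw [Finset.sum_insert, Finset.sum_image, sum_dec j hj, add_zero]
  · intro i hi i' hi' h
    by_contra hne
    have hi2 : i < 9 := by simpa using hi
    have hi2' : i' < 9 := by simpa using hi'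
    exact distinct j hj i i' hi2 hi2' hne
      (dec_inj (range1 j hj i hi2).2.1 (range1 j hj i' hi2').2.1 h)
  · intro h
    rw [Finset.mem_image] at h
    obtain ⟨i, hi, h⟩ := h
    have hi2 : i < 9 := by simpa using hi
    exact dec_ne_zero (range1 j hj i hi2).1 (range1 j hj i hi2).2.1 h

/-- closure of the system of blocks through 0 -/
theorem closure_idx {j : ℕ} (hj : j < 1736) {P Q Q' : V} (hP : P ∈ C j) (hQ : Q ∈ C j)
    (hQ' : Q' ∈ C j) (h1 : P ≠ Q) (h2 : P ≠ Q') : idx (star (-P) Q) = idx (star (-P) Q') := by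
  by_cases hP0 : P = 0
  · subst hP0
    rw [neg_zero, zero_star, zero_star, idx_of_mem hj (Ne.symm h1) hQ, idx_of_mem hj (Ne.symm h2) hQ']
  · -- both equal to the index of `star (-P) 0`
    rcases mem_C.1 hP with h | ⟨i, hi, h⟩
    · exact absurd h hP0
    · have key : ∀ R ∈ C j, P ≠ R → idx (star (-P) R) = fI (opN (el (blk j) i) 0) := by
        intro R hR hPR
        rcases mem_C.1 hR with hR0 | ⟨i', hi', hR'⟩
        · subst hR0
          unfold idx
          rw [← h, ← dec_zero, ← dec_opN, enc_dec _ (opN_lt _ _)]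
        · have hne : i ≠ i' := by
            intro he
            subst he
            exact hPR (h.symm.trans hR')
          unfold idx
          rw [← h, ← hR', ← dec_opN, enc_dec _ (opN_lt _ _)]
          exact closure j hj i i' hi hi' hne
      rw [key Q hQ h1, key Q' hQ' h2]

theorem star_neg_ne {P Q : V} (h : P ≠ Q) : star (-P) Q ≠ 0 := by
  intro h0
  apply h
  have := star_inj (-P) (h0.trans (neg_star P).symm)
  exact this.symm

/-- translate of a block through 0 -/
theorem image_C {j : ℕ} (hj : j < 1736) {P Q : V} (hP : P ∈ C j) (hQ : Q ∈ C j) (h : P ≠ Q) :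
    (C j).image (star (-P)) = C (idx (star (-P) Q)) := by
  have hlt := (mem_C_idx (star_neg_ne h)).1
  apply Finset.eq_of_subset_of_card_le
  · intro R hR
    rw [Finset.mem_image] at hR
    obtain ⟨Q', hQ', rfl⟩ := hR
    by_cases hPQ : P = Q'
    · subst hPQ
      rw [neg_star]
      exact zero_mem_C _
    · rw [closure_idx hj hP hQ hQ' h hPQ]
      exact (mem_C_idx (star_neg_ne hPQ)).2
  · rw [Finset.card_image_of_injective _ (star_inj _), card_C hj, card_C hlt]

/-- the blocks -/
def blocks : Set (Finset V) := {B | ∃ (X : V) (j : ℕ), j < 1736 ∧ B = (C j).image (star X)}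

theorem block_card {B : Finset V} (h : B ∈ blocks) : B.card = 10 := by
  obtain ⟨X, j, hj, rfl⟩ := h
  rw [Finset.card_image_of_injective _ (star_inj _), card_C hj]

theorem block_sum {B : Finset V} (h : B ∈ blocks) : ∑ x ∈ B, x = 0 := by
  obtain ⟨X, j, hj, rfl⟩ := h
  rw [Finset.sum_image (fun a _ b _ hab => star_inj X hab)]
  simp only [star_eq]
  rw [Finset.sum_add_distrib, Finset.sum_const, card_C hj, ← map_sum, sum_C hj, map_zero, add_zero]
  funext i
  show 10 • (X i) = 0
  rw [nsmul_eq_mul]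
  have : ((10 : ℕ) : ZMod 5) = 0 := by decide
  rw [this, zero_mul]

theorem blocks_unique {x y : V} (hxy : x ≠ y) {B : Finset V} (hB : B ∈ blocks) (hx : x ∈ B)
    (hy : y ∈ B) : B = (C (idx (star (-x) y))).image (star x) := by
  obtain ⟨X, j, hj, rfl⟩ := hB
  rw [Finset.mem_image] at hx hy
  obtain ⟨p, hp, rfl⟩ := hx
  obtain ⟨q, hq, rfl⟩ := hy
  have hpq : p ≠ q := fun h => hxy (by rw [h])
  have e1 : star (-(star X p)) (star X q) = star (-p) q := by
    apply star_inj (star X p)
    rw [← star_assoc, star_neg, zero_star, star_assoc, ← star_assoc p, star_neg, zero_star]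
  rw [e1, ← image_C hj hp hq hpq, Finset.image_image]
  apply Finset.image_congr
  intro c hc
  show star X c = star (star X p) (star (-p) c)
  rw [star_assoc, ← star_assoc p, star_neg, zero_star]

theorem blocks_exist {x y : V} (hxy : x ≠ y) : (C (idx (star (-x) y))).image (star x) ∈ blocks ∧
    x ∈ (C (idx (star (-x) y))).image (star x) ∧ y ∈ (C (idx (star (-x) y))).image (star x) := by
  have h := mem_C_idx (star_neg_ne hxy)
  refine ⟨⟨x, _, h.1, rfl⟩, ?_, ?_⟩
  · rw [Finset.mem_image]
    exact ⟨0, zero_mem_C _, star_zero x⟩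
  · rw [Finset.mem_image]
    refine ⟨_, h.2, ?_⟩
    rw [← star_assoc, star_neg, zero_star]

end Pool.Agent.AddDes
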