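import Pool.Agent.AddDes.Check

set_option linter.all false

namespace Pool.Agent.AddDes

open Finset

/-- the point set -/
abbrev V := Fin 6 → ZMod 5

/-- decoding -/
def dec (n : ℕ) : V := fun i => ((n / 5 ^ (i : ℕ) : ℕ) : ZMod 5)

/-- the commutator part -/
def cr (P Q : V) : V :=
  ![0, 0, 0, P 1 * Q 2 - P 2 * Q 1, P 2 * Q 0 - P 0 * Q 2, P 0 * Q 1 - P 1 * Q 0]

/-- group law -/
def star (P Q : V) : V := P + Q + cr P Q

theorem star_assoc (P Q X : V) : star (star P Q) X = star P (star Q X) := by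
  funext i
  fin_cases i <;> simp [star, cr] <;> ring

theorem star_zero (P : V) : star P 0 = P := by
  funext i
  fin_cases i <;> simp [star, cr]

theorem zero_star (P : V) : star 0 P = P := by
  funext i
  fin_cases i <;> simp [star, cr]

theorem star_neg (P : V) : star P (-P) = 0 := by
  funext i
  fin_cases i <;> simp [star, cr] <;> ring

theorem neg_star (P : V) : star (-P) P = 0 := by
  funext i
  fin_cases i <;> simp [star, cr] <;> ring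

theorem star_inj (P : V) : Function.Injective (star P) := by
  intro A B h
  have := congrArg (star (-P)) h
  simpa only [← star_assoc, neg_star, zero_star] using this

theorem cr_add (P Q R : V) : cr P (Q + R) = cr P Q + cr P R := by
  funext i
  fin_cases i
  · show (0 : ZMod 5) = 0 + 0
    ring
  · show (0 : ZMod 5) = 0 + 0
    ring
  · show (0 : ZMod 5) = 0 + 0
    ring
  · show P 1 * (Q 2 + R 2) - P 2 * (Q 1 + R 1) =
      (P 1 * Q 2 - P 2 * Q 1) + (P 1 * R 2 - P 2 * R 1)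
    ring
  · show P 2 * (Q 0 + R 0) - P 0 * (Q 2 + R 2) =
      (P 2 * Q 0 - P 0 * Q 2) + (P 2 * R 0 - P 0 * R 2)
    ring
  · show P 0 * (Q 1 + R 1) - P 1 * (Q 0 + R 0) =
      (P 0 * Q 1 - P 1 * Q 0) + (P 0 * R 1 - P 1 * R 0)
    ring

/-- the linear part of a left translation -/
def lin (P : V) : V →+ V where
  toFun Q := Q + cr P Q
  map_zero' := by
    funext i
    fin_cases i <;> simp [cr]
  map_add' Q R := by
    rw [cr_add]
    abel

theorem star_eq (P Q : V) : star P Q = P + lin P Q := by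
  show P + Q + cr P Q = P + (Q + cr P Q)
  abel

/-- encoding -/
def enc (P : V) : ℕ :=
  (P 0).val + 5 * ((P 1).val + 5 * ((P 2).val + 5 * ((P 3).val + 5 * ((P 4).val + 5 * (P 5).val))))

theorem enc_lt (P : V) : enc P < 15625 := by
  have h := fun i => ZMod.val_lt (P i)
  have h0 := h 0
  have h1 := h 1
  have h2 := h 2
  have h3 := h 3
  have h4 := h 4
  have h5 := h 5
  unfold enc
  omega

theorem cast_aux (a b : ℕ) : ((a + 5 * b : ℕ) : ZMod 5) = (a : ZMod 5) := by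
  push_cast
  have : (5 : ZMod 5) = 0 := by decide
  rw [this]
  ring

theorem div_aux (a b : ℕ) (h : a < 5) : (a + 5 * b) / 5 = b := by omega

theorem dec_nested (d0 d1 d2 d3 d4 d5 : ℕ) (h0 : d0 < 5) (h1 : d1 < 5) (h2 : d2 < 5) (h3 : d3 < 5)
    (h4 : d4 < 5) :
    dec (d0 + 5 * (d1 + 5 * (d2 + 5 * (d3 + 5 * (d4 + 5 * d5))))) =
      ![(d0 : ZMod 5), (d1 : ZMod 5), (d2 : ZMod 5), (d3 : ZMod 5), (d4 : ZMod 5), (d5 : ZMod 5)] := by
  have e1 : (d0 + 5 * (d1 + 5 * (d2 + 5 * (d3 + 5 * (d4 + 5 * d5))))) / 5 ^ 1 =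
      d1 + 5 * (d2 + 5 * (d3 + 5 * (d4 + 5 * d5))) := by
    rw [pow_one]; exact div_aux _ _ h0
  have e2 : (d0 + 5 * (d1 + 5 * (d2 + 5 * (d3 + 5 * (d4 + 5 * d5))))) / 5 ^ 2 =
      d2 + 5 * (d3 + 5 * (d4 + 5 * d5)) := by
    rw [pow_succ 5 1, ← Nat.div_div_eq_div_mul, e1]; exact div_aux _ _ h1
  have e3 : (d0 + 5 * (d1 + 5 * (d2 + 5 * (d3 + 5 * (d4 + 5 * d5))))) / 5 ^ 3 =
      d3 + 5 * (d4 + 5 * d5) := by
    rw [pow_succ 5 2, ← Nat.div_div_eq_div_mul, e2]; exact div_aux _ _ h2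
  have e4 : (d0 + 5 * (d1 + 5 * (d2 + 5 * (d3 + 5 * (d4 + 5 * d5))))) / 5 ^ 4 =
      d4 + 5 * d5 := by
    rw [pow_succ 5 3, ← Nat.div_div_eq_div_mul, e3]; exact div_aux _ _ h3
  have e5 : (d0 + 5 * (d1 + 5 * (d2 + 5 * (d3 + 5 * (d4 + 5 * d5))))) / 5 ^ 5 = d5 := by
    rw [pow_succ 5 4, ← Nat.div_div_eq_div_mul, e4]; exact div_aux _ _ h4
  funext i
  fin_cases i
  · show (((d0 + 5 * (d1 + 5 * (d2 + 5 * (d3 + 5 * (d4 + 5 * d5))))) / 5 ^ 0 : ℕ) : ZMod 5) = (d0 : ZMod 5)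
    rw [pow_zero, Nat.div_one, cast_aux]
  · show (((d0 + 5 * (d1 + 5 * (d2 + 5 * (d3 + 5 * (d4 + 5 * d5))))) / 5 ^ 1 : ℕ) : ZMod 5) = (d1 : ZMod 5)
    rw [e1, cast_aux]
  · show (((d0 + 5 * (d1 + 5 * (d2 + 5 * (d3 + 5 * (d4 + 5 * d5))))) / 5 ^ 2 : ℕ) : ZMod 5) = (d2 : ZMod 5)
    rw [e2, cast_aux]
  · show (((d0 + 5 * (d1 + 5 * (d2 + 5 * (d3 + 5 * (d4 + 5 * d5))))) / 5 ^ 3 : ℕ) : ZMod 5) = (d3 : ZMod 5)
    rw [e3, cast_aux]
  · show (((d0 + 5 * (d1 + 5 * (d2 + 5 * (d3 + 5 * (d4 + 5 * d5))))) / 5 ^ 4 : ℕ) : ZMod 5) = (d4 : ZMod 5)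
    rw [e4, cast_aux]
  · show (((d0 + 5 * (d1 + 5 * (d2 + 5 * (d3 + 5 * (d4 + 5 * d5))))) / 5 ^ 5 : ℕ) : ZMod 5) = (d5 : ZMod 5)
    rw [e5]

theorem dec_enc (P : V) : dec (enc P) = P := by
  unfold enc
  rw [dec_nested _ _ _ _ _ _ (ZMod.val_lt _) (ZMod.val_lt _) (ZMod.val_lt _) (ZMod.val_lt _) (ZMod.val_lt _)]
  funext i
  fin_cases i <;> simp [ZMod.natCast_zmod_val]

theorem val_dec (n : ℕ) (i : Fin 6) : (dec n i).val = n / 5 ^ (i : ℕ) % 5 := by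
  unfold dec
  rw [ZMod.val_natCast]

theorem enc_dec (n : ℕ) (hn : n < 15625) : enc (dec n) = n := by
  unfold enc
  rw [val_dec, val_dec, val_dec, val_dec, val_dec, val_dec]
  norm_num
  omega

theorem dec_inj {m n : ℕ} (hm : m < 15625) (hn : n < 15625) (h : dec m = dec n) : m = n := by
  rw [← enc_dec m hm, ← enc_dec n hn, h]

theorem dg_cast (n k : ℕ) (i : Fin 6) (hk : k = 5 ^ (i : ℕ)) : ((dg n k : ℕ) : ZMod 5) = dec n i := by
  subst hk
  show (((n / 5 ^ (i : ℕ)) % 5 : ℕ) : ZMod 5) = ((n / 5 ^ (i : ℕ) : ℕ) : ZMod 5)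
  rw [ZMod.natCast_mod]

theorem four_eq : (4 : ZMod 5) = -1 := by decide

theorem dec_opN (m n : ℕ) : dec (opN m n) = star (-(dec m)) (dec n) := by
  have h0 := fun n => dg_cast n 1 0 rfl
  have h1 := fun n => dg_cast n 5 1 rfl
  have h2 := fun n => dg_cast n 25 2 rfl
  have h3 := fun n => dg_cast n 125 3 rfl
  have h4 := fun n => dg_cast n 625 4 rfl
  have h5 := fun n => dg_cast n 3125 5 rfl
  have key : dec (opN m n) = _ := dec_nested
    ((dg n 1 + 4 * dg m 1) % 5) ((dg n 5 + 4 * dg m 5) % 5) ((dg n 25 + 4 * dg m 25) % 5)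
    ((dg n 125 + 4 * dg m 125 + (4 * (dg m 5 * dg n 25) + dg m 25 * dg n 5)) % 5)
    ((dg n 625 + 4 * dg m 625 + (4 * (dg m 25 * dg n 1) + dg m 1 * dg n 25)) % 5)
    ((dg n 3125 + 4 * dg m 3125 + (4 * (dg m 1 * dg n 5) + dg m 5 * dg n 1)) % 5)
    (Nat.mod_lt _ (by norm_num)) (Nat.mod_lt _ (by norm_num)) (Nat.mod_lt _ (by norm_num))
    (Nat.mod_lt _ (by norm_num)) (Nat.mod_lt _ (by norm_num))
  rw [key]
  funext i
  fin_cases i
  · simp [star, cr, h0, four_eq]; ring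
  · simp [star, cr, h1, four_eq]; ring
  · simp [star, cr, h2, four_eq]; ring
  · simp [star, cr, h1, h2, h3, four_eq]; ring
  · simp [star, cr, h0, h2, h4, four_eq]; ring
  · simp [star, cr, h0, h1, h5, four_eq]; ring

theorem opN_lt (m n : ℕ) : opN m n < 15625 := by
  have e : opN m n = (dg n 1 + 4 * dg m 1) % 5 + 5 * ((dg n 5 + 4 * dg m 5) % 5 +
    5 * ((dg n 25 + 4 * dg m 25) % 5 +
    5 * ((dg n 125 + 4 * dg m 125 + (4 * (dg m 5 * dg n 25) + dg m 25 * dg n 5)) % 5 +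
    5 * ((dg n 625 + 4 * dg m 625 + (4 * (dg m 25 * dg n 1) + dg m 1 * dg n 25)) % 5 +
    5 * ((dg n 3125 + 4 * dg m 3125 + (4 * (dg m 1 * dg n 5) + dg m 5 * dg n 1)) % 5))))) := rfl
  rw [e]
  have a0 := Nat.mod_lt (dg n 1 + 4 * dg m 1) (show 0 < 5 by norm_num)
  have a1 := Nat.mod_lt (dg n 5 + 4 * dg m 5) (show 0 < 5 by norm_num)
  have a2 := Nat.mod_lt (dg n 25 + 4 * dg m 25) (show 0 < 5 by norm_num)
  have a3 := Nat.mod_lt (dg n 125 + 4 * dg m 125 + (4 * (dg m 5 * dg n 25) + dg m 25 * dg n 5)) (show 0 < 5 by norm_num)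
  have a4 := Nat.mod_lt (dg n 625 + 4 * dg m 625 + (4 * (dg m 25 * dg n 1) + dg m 1 * dg n 25)) (show 0 < 5 by norm_num)
  have a5 := Nat.mod_lt (dg n 3125 + 4 * dg m 3125 + (4 * (dg m 1 * dg n 5) + dg m 5 * dg n 1)) (show 0 < 5 by norm_num)
  omega

end Pool.Agent.AddDes
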